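import Pool.Agent.Helper179.SinkMaps

open MeasureTheory Filter Topology

namespace Pool.Agent.Results.MP_636246_an.SinkSaddles

open Pool.Agent.Helper179.Eq

/-- The elementary Henon map `(x, y) ↦ (y, p(y) - a x)`. -/
noncomputable def elementaryHenon (p : Polynomial ℂ) (a : ℂ) (z : ℂ × ℂ) : ℂ × ℂ :=
  (z.2, p.eval z.2 - a * z.1)

/-- Complex Henon maps: compositions `h₁ ∘ ⋯ ∘ h_k` (`k ≥ 1`) of elementary Henon maps with
polynomials of degree at least `2` and non-zero parameters `a`. -/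
inductive IsComplexHenon : (ℂ × ℂ → ℂ × ℂ) → Prop
  | elementary (p : Polynomial ℂ) (a : ℂ) (hp : 2 ≤ p.natDegree) (ha : a ≠ 0) :
      IsComplexHenon (elementaryHenon p a)
  | comp (p : Polynomial ℂ) (a : ℂ) (f : ℂ × ℂ → ℂ × ℂ) (hp : 2 ≤ p.natDegree) (ha : a ≠ 0)
      (hf : IsComplexHenon f) : IsComplexHenon (elementaryHenon p a ∘ f)

/-- `SP_n`: the points `x` with `f^n(x) = x` such that `Df^n(x)` has an eigenvalue of modulus
greater than `1` and an eigenvalue of modulus less than `1`. -/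
def saddlePoints (f : ℂ × ℂ → ℂ × ℂ) (n : ℕ) : Set (ℂ × ℂ) :=
  {x | f^[n] x = x ∧
    (∃ c : ℂ, 1 < ‖c‖ ∧
      Module.End.HasEigenvalue (fderiv ℂ (f^[n]) x : ℂ × ℂ →ₗ[ℂ] ℂ × ℂ) c) ∧
    (∃ c : ℂ, ‖c‖ < 1 ∧
      Module.End.HasEigenvalue (fderiv ℂ (f^[n]) x : ℂ × ℂ →ₗ[ℂ] ℂ × ℂ) c)}

/-- The measure `e^{-n P(φ)} ∑_{x ∈ SP_n} e^{S_n φ(x)} δ_x`. -/
noncomputable def saddleMeasure (f : ℂ × ℂ → ℂ × ℂ) (φ : ℂ × ℂ → ℝ) (n : ℕ) :
    Measure (ℂ × ℂ) :=
  ENNReal.ofReal (Real.exp (-(n * (pressure f φ).toReal))) •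
    Measure.sum (fun x : saddlePoints f n =>
      ENNReal.ofReal (Real.exp (∑ j ∈ Finset.range n, φ (f^[j] x))) •
        Measure.dirac (x : ℂ × ℂ))

/-- Weak convergence of measures against compactly supported continuous functions. -/
def ConvergesWeakly (m : ℕ → Measure (ℂ × ℂ)) (μ : Measure (ℂ × ℂ)) : Prop :=
  ∀ g : ℂ × ℂ → ℝ, Continuous g → HasCompactSupport g →
    Tendsto (fun n => ∫ z, g z ∂(m n)) atTop (𝓝 (∫ z, g z ∂μ))

lemma mapB_henon : IsComplexHenon mapB := by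
  have h : mapB = elementaryHenon (Polynomial.X ^ 2) (1 / 4) := by
    funext z
    simp [mapB, elementaryHenon]
  rw [h]
  exact IsComplexHenon.elementary _ _ (by simp) (by norm_num)

/-- The adapted norm. -/
noncomputable def adapted (z : ℂ × ℂ) : ℝ := max ‖z.2‖ (‖z.1‖ / 2)

lemma adapted_nonneg (z : ℂ × ℂ) : 0 ≤ adapted z := le_trans (norm_nonneg _) (le_max_left _ _)

lemma adapted_eq_zero {z : ℂ × ℂ} (hz : adapted z ≤ 0) : z = 0 := by
  have h1 : ‖z.2‖ ≤ 0 := (le_max_left _ _).trans hz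
  have h2 : ‖z.1‖ / 2 ≤ 0 := (le_max_right _ _).trans hz
  apply Prod.ext
  · have : ‖z.1‖ ≤ 0 := by linarith
    simpa using this
  · simpa using h1

lemma adapted_smul (c : ℂ) (z : ℂ × ℂ) : adapted (c • z) = ‖c‖ * adapted z := by
  unfold adapted
  rw [mul_max_of_nonneg _ _ (norm_nonneg c)]
  simp only [Prod.smul_fst, Prod.smul_snd, norm_smul]
  rw [mul_div_assoc]

lemma adapted_mapB {z : ℂ × ℂ} (hz : adapted z ≤ 1 / 4) : adapted (mapB z) ≤ 3 / 4 * adapted z := by
  have h0 : adapted z = max ‖z.2‖ (‖z.1‖ / 2) := rfl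
  unfold adapted
  apply max_le
  · exact contract_ineq (le_max_left _ _) (le_max_right _ _) hz
  · simp only [mapB]
    have h1 : ‖z.2‖ ≤ max ‖z.2‖ (‖z.1‖ / 2) := le_max_left _ _
    have h2 := norm_nonneg z.2
    linarith

lemma adapted_iterate {z : ℂ × ℂ} (hz : adapted z ≤ 1 / 4) (n : ℕ) :
    adapted (mapB^[n] z) ≤ (3 / 4) ^ n * adapted z := by
  induction n with
  | zero => simp
  | succ n ih =>
    rw [Function.iterate_succ_apply']
    have h0 := adapted_nonneg z
    have h1 : ((3 : ℝ) / 4) ^ n ≤ 1 := pow_le_one₀ (by norm_num) (by norm_num)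
    have h2 : adapted (mapB^[n] z) ≤ 1 / 4 := by
      refine ih.trans ?_
      nlinarith
    have h3 := adapted_mapB h2
    rw [pow_succ]
    linarith

/-- The derivative of `mapB` at the origin. -/
noncomputable def derivB : ℂ × ℂ →L[ℂ] ℂ × ℂ :=
  (ContinuousLinearMap.snd ℂ ℂ ℂ).prod (-((1 / 4 : ℂ) • ContinuousLinearMap.fst ℂ ℂ ℂ))

lemma hasFDerivAt_mapB : HasFDerivAt mapB derivB 0 := by
  unfold mapB derivB
  have h1 : HasFDerivAt (fun z : ℂ × ℂ => z.2) (ContinuousLinearMap.snd ℂ ℂ ℂ) 0 :=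
    hasFDerivAt_snd
  have h2 : HasFDerivAt (fun z : ℂ × ℂ => z.1) (ContinuousLinearMap.fst ℂ ℂ ℂ) 0 :=
    hasFDerivAt_fst
  have h3 := (h1.pow 2).sub (h2.const_mul (1 / 4 : ℂ))
  refine h1.prodMk (h3.congr_fderiv ?_)
  ext <;> simp

lemma mapB_zero : mapB 0 = 0 := by simp [mapB]

lemma fderiv_iterate (n : ℕ) : fderiv ℂ (mapB^[n]) 0 = derivB ^ n :=
  (hasFDerivAt_mapB.iterate mapB_zero n).fderiv

lemma derivB_apply (v : ℂ × ℂ) : derivB v = (v.2, -((1 / 4) * v.1)) := by
  simp [derivB]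

lemma adapted_derivB (v : ℂ × ℂ) : adapted (derivB v) ≤ adapted v := by
  rw [derivB_apply]
  unfold adapted
  have h1 : ‖v.2‖ ≤ max ‖v.2‖ (‖v.1‖ / 2) := le_max_left _ _
  have h2 : ‖v.1‖ / 2 ≤ max ‖v.2‖ (‖v.1‖ / 2) := le_max_right _ _
  have h3 := norm_nonneg v.1
  have h4 := norm_nonneg v.2
  have h5 : ‖-((1 / 4) * v.1)‖ = (1 / 4) * ‖v.1‖ := by
    rw [norm_neg, norm_mul]; norm_num
  apply max_le
  · simp only [h5]
    linarith
  · simp only
    linarith

lemma adapted_derivB_pow (n : ℕ) (v : ℂ × ℂ) : adapted ((derivB ^ n) v) ≤ adapted v := by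
  induction n with
  | zero => simp
  | succ n ih =>
    rw [pow_succ']
    change adapted (derivB ((derivB ^ n) v)) ≤ adapted v
    exact (adapted_derivB _).trans ih

lemma zero_not_saddle (n : ℕ) : (0 : ℂ × ℂ) ∉ saddlePoints mapB n := by
  rintro ⟨_, ⟨c, hc, hc'⟩, _⟩
  obtain ⟨v, hv⟩ := hc'.exists_hasEigenvector
  rw [fderiv_iterate] at hv
  have h1 : (derivB ^ n) v = c • v := hv.apply_eq_smul
  have h2 := adapted_derivB_pow n v
  rw [h1, adapted_smul] at h2
  have h3 : 0 < adapted v := by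
    by_contra h
    exact hv.2 (adapted_eq_zero (not_lt.1 h))
  nlinarith

lemma saddle_far {n : ℕ} {z : ℂ × ℂ} (hz : z ∈ saddlePoints mapB n) : tent z = 0 := by
  by_contra hne
  have hlt : ‖z‖ < 1 / 4 := by
    by_contra h
    exact hne (tent_eq_zero (not_lt.1 h))
  have hN : adapted z ≤ 1 / 4 := by
    refine le_trans ?_ hlt.le
    rw [Prod.norm_def, max_comm ‖z.1‖ ‖z.2‖]
    apply max_le_max le_rfl
    have := norm_nonneg z.1
    linarith
  rcases Nat.eq_zero_or_pos n with rfl | hn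
  · obtain ⟨_, ⟨c, hc, hc'⟩, _⟩ := hz
    obtain ⟨v, hv⟩ := hc'.exists_hasEigenvector
    have h1 : v = c • v := by
      have := hv.apply_eq_smul
      simpa using this
    have h2 : (1 - c) • v = 0 := by rw [sub_smul, one_smul, ← h1, sub_self]
    rcases smul_eq_zero.1 h2 with h | h
    · have : c = 1 := by linear_combination -h
      rw [this] at hc
      simp at hc
    · exact hv.2 h
  · have h1 := adapted_iterate hN n
    rw [hz.1] at h1
    have h2 : ((3 : ℝ) / 4) ^ n < 1 := pow_lt_one₀ (by norm_num) (by norm_num) hn.ne'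
    have h3 : adapted z ≤ 0 := by
      by_contra h
      push Not at h
      nlinarith
    have h4 := adapted_eq_zero h3
    rw [h4] at hz
    exact zero_not_saddle n hz

lemma hasCompactSupport_tent : HasCompactSupport tent := by
  apply HasCompactSupport.of_support_subset_isCompact (isCompact_closedBall (0 : ℂ × ℂ) (1 / 4))
  intro z hz
  rw [Function.mem_support] at hz
  rw [mem_closedBall_zero_iff]
  by_contra h
  exact hz (tent_eq_zero (not_le.1 h).le)

lemma integral_saddleMeasure (φ : ℂ × ℂ → ℝ) (n : ℕ) :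
    ∫ z, tent z ∂(saddleMeasure mapB φ n) = 0 := by
  apply integral_eq_zero_of_ae
  unfold saddleMeasure
  apply Measure.ae_smul_measure
  have hm : MeasurableSet {z : ℂ × ℂ | tent z = (0 : ℂ × ℂ → ℝ) z} :=
    measurableSet_eq_fun continuous_tent.measurable measurable_const
  refine (Measure.ae_sum_iff' hm).2 ?_
  intro x
  apply Measure.ae_smul_measure
  exact (ae_dirac_iff hm).2 (saddle_far x.2)

/-- Weighted equidistribution of saddle points fails for some complex Henon map and some Hölder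
continuous weight with exactly one equilibrium state. -/
theorem result : ¬ ∀ f : ℂ × ℂ → ℂ × ℂ, IsComplexHenon f → ∀ φ : ℂ × ℂ → ℝ, IsHolder φ →
    ∀ μ : Measure (ℂ × ℂ), IsEquilibriumState f φ μ →
      (∀ ν : Measure (ℂ × ℂ), IsEquilibriumState f φ ν → ν = μ) →
      ConvergesWeakly (saddleMeasure f φ) μ := by
  intro hall
  obtain ⟨H, hf⟩ := sinkData_mapB
  obtain ⟨_, he, hu⟩ := hf.unique_of_large (lt_add_one H)
  have h1 := hall mapB mapB_henon _ (isHolder_smul_tent (H + 1)) _ he hu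
    tent continuous_tent hasCompactSupport_tent
  simp only [integral_saddleMeasure] at h1
  rw [integral_dirac, tent_zero] at h1
  have h2 := tendsto_nhds_unique h1 tendsto_const_nhds
  norm_num at h2

end Pool.Agent.Results.MP_636246_an.SinkSaddles
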